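import Pool.Agent.H43.BZ.Stm

/-!
# Task KEY2 of helper43 (non-cutoff Boltzmann equation): the algebraic estimate for `t ≥ 1`
-/

set_option autoImplicit false

open MeasureTheory Metric Set
open scoped RealInnerProductSpace ENNReal

namespace Pool.Agent.H51.BZ

open Pool.Agent.H43.BZ

/-- the norm of `v + X` -/
theorem norm_low {V : Type} [NormedAddCommGroup V] [InnerProductSpace ℝ V] {v w X : V} {t : ℝ}
    (hX : ⟪X, v - w⟫ = 0) (hn : ‖X‖ = t * ‖v - w‖) :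
    ‖v‖ ^ 2 + (t * ‖v - w‖) * (t * ‖v - w‖ - 2 * ‖w‖) ≤ ‖v + X‖ ^ 2 := by
  have h1 : ‖v + X‖ ^ 2 = ‖v‖ ^ 2 + 2 * ⟪v, X⟫ + ‖X‖ ^ 2 := norm_add_sq_real v X
  have h2 : ⟪v, X⟫ = ⟪w, X⟫ := by
    rw [inner_sub_right, sub_eq_zero] at hX
    rw [real_inner_comm, hX, real_inner_comm]
  have h3 : |⟪w, X⟫| ≤ ‖w‖ * ‖X‖ := abs_real_inner_le_norm w X
  have h4 := neg_abs_le ⟪w, X⟫
  rw [h1, h2, hn]
  rw [hn] at h3
  nlinarith

theorem norm_low' {V : Type} [NormedAddCommGroup V] [InnerProductSpace ℝ V] {v w X : V} {t : ℝ}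
    (hX : ⟪X, v - w⟫ = 0) (hn : ‖X‖ = t * ‖v - w‖) :
    ‖v‖ ^ 2 + (t * ‖v - w‖) * (t * ‖v - w‖ - 2 * ‖w‖) ≤ ‖v - X‖ ^ 2 := by
  have := norm_low (v := v) (w := w) (X := -X) (by rw [inner_neg_left, hX, neg_zero])
    (by rw [norm_neg, hn])
  rwa [← sub_eq_add_neg] at this

/-- real algebra, slow partners -/
theorem alg_slow {a b r t : ℝ} (ha : 0 ≤ a) (hb : 0 ≤ b) (ht : 1 ≤ t) (hr : a - b ≤ r)
    (h4 : 4 * (1 + b ^ 2) < 1 + a ^ 2) (hs : 256 * b ^ 2 ≤ 1 + a ^ 2) :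
    (1 + t ^ 2 / 4) * (1 + a ^ 2) ≤ 1 + (a ^ 2 + (t * r) * (t * r - 2 * b)) := by
  have h1 : 3 < a ^ 2 := by nlinarith [sq_nonneg b]
  have h2 : (12 * b) ^ 2 ≤ a ^ 2 := by nlinarith
  have h3 : 12 * b ≤ a := (sq_le_sq₀ (by positivity) ha).1 h2
  have h5 : 11 * a ≤ 12 * r := by linarith
  have hr0 : 0 ≤ r := by linarith
  have h6 : 2 * b ≤ 2 / 11 * (t * r) := by nlinarith
  have h7 : 9 / 11 * (t * r) ≤ t * r - 2 * b := by linarith
  have h8 : 0 ≤ t * r := by positivity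
  have h9 : 9 / 11 * (t * r) ^ 2 ≤ (t * r) * (t * r - 2 * b) := by nlinarith
  have h10 : (11 * (t * a)) ^ 2 ≤ (12 * (t * r)) ^ 2 := by
    apply pow_le_pow_left₀ (by positivity)
    nlinarith
  have h11 : t ^ 2 * (1 + a ^ 2) ≤ 4 / 3 * (t * a) ^ 2 := by
    have : 1 + a ^ 2 ≤ 4 / 3 * a ^ 2 := by linarith
    have ht2 : 0 ≤ t ^ 2 := by positivity
    nlinarith
  nlinarith

/-- real algebra, general -/
theorem alg_gen {a b r t : ℝ} (ha : 0 ≤ a) (hb : 0 ≤ b) (ht : 1 ≤ t) (hr : a - b ≤ r)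
    (h4 : 4 * (1 + b ^ 2) < 1 + a ^ 2) :
    t ^ 2 / 48 * (1 + a ^ 2) ≤ 1 + (a ^ 2 + (t * r) * (t * r - 2 * b)) := by
  have h1 : 3 < a ^ 2 := by nlinarith [sq_nonneg b]
  have h2 : (2 * b) ^ 2 ≤ a ^ 2 := by nlinarith
  have h3 : 2 * b ≤ a := (sq_le_sq₀ (by positivity) ha).1 h2
  rcases le_total t 6 with h6 | h6
  · have h7 : t ^ 2 ≤ 36 := by nlinarith
    have h8 : a ^ 2 - b ^ 2 ≤ a ^ 2 + (t * r) * (t * r - 2 * b) := by
      nlinarith [sq_nonneg (t * r - b)]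
    nlinarith
  · have h5 : a ≤ 2 * r := by linarith
    have hr0 : 0 ≤ r := by linarith
    have h7 : 2 * b ≤ 1 / 3 * (t * r) := by nlinarith
    have h8 : 0 ≤ t * r := by positivity
    have h9 : 2 / 3 * (t * r) ^ 2 ≤ (t * r) * (t * r - 2 * b) := by nlinarith
    have h10 : (t * a) ^ 2 ≤ (2 * (t * r)) ^ 2 := by
      apply pow_le_pow_left₀ (by positivity)
      nlinarith
    have h11 : t ^ 2 * (1 + a ^ 2) ≤ 4 / 3 * (t * a) ^ 2 := by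
      have : 1 + a ^ 2 ≤ 4 / 3 * a ^ 2 := by linarith
      have ht2 : 0 ≤ t ^ 2 := by positivity
      nlinarith
    nlinarith

/-- comparison of the weights -/
theorem P_le {V : Type} [NormedAddCommGroup V] (d : ℕ) {v y : V} {κ : ℝ} (hκ : 0 < κ)
    (h : κ * (1 + ‖v‖ ^ 2) ≤ 1 + ‖y‖ ^ 2) : P d y ≤ P d v * (κ ^ (4 * (d + 3)))⁻¹ := by
  unfold P
  rw [← mul_inv, ← mul_pow, mul_comm (1 + ‖v‖ ^ 2) κ]
  apply inv_anti₀ (by positivity)
  exact pow_le_pow_left₀ (by positivity) h _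

theorem P_pos {V : Type} [NormedAddCommGroup V] (d : ℕ) (v : V) : 0 < P d v := by
  unfold P; positivity

theorem er_nonneg (t L r : ℝ) : 0 ≤ er t L r := by
  unfold er; positivity

theorem KEY2 : S_KEY2 := by
  intro d
  refine ⟨290 * (48 ^ (4 * (d + 3)) * 2 ^ (d + 2)), by positivity, ?_⟩
  intro V _ _ v w X t ht hX hn h4
  have hr : ‖v‖ - ‖w‖ ≤ ‖v - w‖ := norm_sub_norm_le v w
  have hr' : ‖v - w‖ ≤ ‖v‖ + ‖w‖ := norm_sub_le v w
  have hlow := norm_low hX hn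
  have hlow' := norm_low' hX hn
  have hP := P_pos d v
  have her := er_nonneg t⁻¹ (1 + ‖w‖) ‖v - w‖
  have hT : (0 : ℝ) < (1 + t ^ 2) ^ (d + 2) := by positivity
  have ha1 : 3 < ‖v‖ ^ 2 := by nlinarith [sq_nonneg ‖w‖]
  have hv1 : 1 ≤ ‖v‖ := by
    by_contra hcon
    push Not at hcon
    nlinarith [norm_nonneg v]
  by_cases hs : Slow v w
  · rw [if_pos hs]
    have hκ : 0 < 1 + t ^ 2 / 4 := by positivity
    have halg := alg_slow (norm_nonneg v) (norm_nonneg w) ht hr h4 hs.2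
    have e1 := P_le (v := v) (y := v + X) d hκ (halg.trans (by linarith))
    have e2 := P_le (v := v) (y := v - X) d hκ (halg.trans (by linarith))
    have e3 : ((1 + t ^ 2 / 4) ^ (4 * (d + 3)))⁻¹ * (1 + t ^ 2) ^ (d + 2) ≤ (1 + t ^ 2)⁻¹ := by
      have h5 : (1 + t ^ 2) ^ (d + 3) ≤ (1 + t ^ 2 / 4) ^ (4 * (d + 3)) := by
        rw [pow_mul]
        refine pow_le_pow_left₀ (by positivity) ?_ _
        have h6 : 0 ≤ t ^ 2 := by positivity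
        nlinarith [pow_nonneg h6 2, pow_nonneg h6 3, pow_nonneg h6 4]
      rw [inv_mul_le_iff₀ (by positivity)]
      calc (1 + t ^ 2) ^ (d + 2) = (1 + t ^ 2) ^ (d + 3) * (1 + t ^ 2)⁻¹ := by
            rw [pow_succ (1 + t ^ 2) (d + 2)]
            field_simp
        _ ≤ (1 + t ^ 2 / 4) ^ (4 * (d + 3)) * (1 + t ^ 2)⁻¹ := by gcongr
    calc (P d (v + X) + P d (v - X)) / 2 * (1 + t ^ 2) ^ (d + 2)
        ≤ (P d v * ((1 + t ^ 2 / 4) ^ (4 * (d + 3)))⁻¹) * (1 + t ^ 2) ^ (d + 2) :=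
          mul_le_mul_of_nonneg_right (by linarith) hT.le
      _ = P d v * (((1 + t ^ 2 / 4) ^ (4 * (d + 3)))⁻¹ * (1 + t ^ 2) ^ (d + 2)) := by ring
      _ ≤ P d v * (1 + t ^ 2)⁻¹ := mul_le_mul_of_nonneg_left e3 hP.le
      _ ≤ _ := by
          refine mul_le_mul_of_nonneg_left ?_ hP.le
          have : 0 ≤ 290 * (48 ^ (4 * (d + 3)) * 2 ^ (d + 2)) * er t⁻¹ (1 + ‖w‖) ‖v - w‖ := by
            positivity
          linarith
  · rw [if_neg hs, zero_add]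
    have hκ : 0 < t ^ 2 / 48 := by positivity
    have halg := alg_gen (norm_nonneg v) (norm_nonneg w) ht hr h4
    have e1 := P_le (v := v) (y := v + X) d hκ (halg.trans (by linarith))
    have e2 := P_le (v := v) (y := v - X) d hκ (halg.trans (by linarith))
    have ht2 : 1 ≤ t ^ 2 := by nlinarith
    have e3 : ((t ^ 2 / 48) ^ (4 * (d + 3)))⁻¹ * (1 + t ^ 2) ^ (d + 2) ≤
        48 ^ (4 * (d + 3)) * 2 ^ (d + 2) * (t⁻¹) ^ 2 := by
      have h5 : (1 + t ^ 2) ^ (d + 2) ≤ 2 ^ (d + 2) * (t ^ 2) ^ (d + 2) := by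
        rw [← mul_pow]
        exact pow_le_pow_left₀ (by positivity) (by linarith) _
      have h6 : (t ^ 2) ^ (d + 3) ≤ (t ^ 2) ^ (4 * (d + 3)) :=
        pow_le_pow_right₀ ht2 (by omega)
      rw [inv_mul_le_iff₀ (by positivity)]
      calc (1 + t ^ 2) ^ (d + 2) ≤ 2 ^ (d + 2) * (t ^ 2) ^ (d + 2) := h5
        _ = 2 ^ (d + 2) * ((t ^ 2) ^ (d + 3) * (t⁻¹) ^ 2) := by
            rw [pow_succ (t ^ 2) (d + 2)]
            field_simp
        _ ≤ 2 ^ (d + 2) * ((t ^ 2) ^ (4 * (d + 3)) * (t⁻¹) ^ 2) := by gcongr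
        _ = (t ^ 2 / 48) ^ (4 * (d + 3)) * (48 ^ (4 * (d + 3)) * 2 ^ (d + 2) * (t⁻¹) ^ 2) := by
            rw [div_pow]
            field_simp
    have e4 : (t⁻¹) ^ 2 ≤ 290 * er t⁻¹ (1 + ‖w‖) ‖v - w‖ := by
      have hns : 1 + ‖v‖ ^ 2 < 256 * ‖w‖ ^ 2 := by
        by_contra hcon
        push Not at hcon
        exact hs ⟨hv1, hcon⟩
      have h7 : ‖v‖ ≤ 16 * ‖w‖ := by
        have h8 : ‖v‖ ^ 2 ≤ (16 * ‖w‖) ^ 2 := by nlinarith
        exact (sq_le_sq₀ (norm_nonneg v) (by positivity)).1 h8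
      have hL : 0 < 1 + ‖w‖ := by positivity
      have h9 : ‖v - w‖ / (1 + ‖w‖) ≤ 17 := by
        rw [div_le_iff₀ hL]
        linarith [norm_nonneg w]
      have h10 : (‖v - w‖ / (1 + ‖w‖)) ^ 2 ≤ 17 ^ 2 := pow_le_pow_left₀ (by positivity) h9 _
      have h11 : (t⁻¹) ^ 2 ≤ min 1 ((t⁻¹) ^ 2 * (1 + ‖w‖) ^ 2) := by
        apply le_min
        · rw [inv_pow]
          exact inv_le_one_of_one_le₀ ht2
        · have h12 : 1 ≤ (1 + ‖w‖) ^ 2 := by nlinarith [norm_nonneg w]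
          have h13 : 0 ≤ (t⁻¹) ^ 2 := by positivity
          nlinarith
      unfold er
      rw [← mul_div_assoc, le_div_iff₀ (by positivity)]
      have h14 : 0 ≤ (t⁻¹) ^ 2 := by positivity
      nlinarith
    calc (P d (v + X) + P d (v - X)) / 2 * (1 + t ^ 2) ^ (d + 2)
        ≤ (P d v * ((t ^ 2 / 48) ^ (4 * (d + 3)))⁻¹) * (1 + t ^ 2) ^ (d + 2) :=
          mul_le_mul_of_nonneg_right (by linarith) hT.le
      _ = P d v * (((t ^ 2 / 48) ^ (4 * (d + 3)))⁻¹ * (1 + t ^ 2) ^ (d + 2)) := by ring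
      _ ≤ P d v * (48 ^ (4 * (d + 3)) * 2 ^ (d + 2) * (t⁻¹) ^ 2) :=
          mul_le_mul_of_nonneg_left e3 hP.le
      _ ≤ P d v * (48 ^ (4 * (d + 3)) * 2 ^ (d + 2) * (290 * er t⁻¹ (1 + ‖w‖) ‖v - w‖)) := by
          gcongr
      _ = _ := by ring

end Pool.Agent.H51.BZ
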