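import Pool.Agent.H43.BZ.Stm4

/-! # LSFIN: the a priori bound for the Landau equation at each velocity scale (helper51) -/

set_option autoImplicit false

open MeasureTheory Metric Set Filter Topology
open scoped RealInnerProductSpace ENNReal

namespace Pool.Agent.H51.BZ

open Pool.Agent.H43.BZ

theorem LSFIN (hf : S_LFIN) (hs : S_LSCAL) (hl : S_LAMS) : S_LSFIN := by
  intro d hd
  obtain ⟨C, hC, h⟩ := hf d hd
  refine ⟨C, hC, ?_⟩
  intro γ hγ1 hγ2 T f hT hsol R hR
  obtain ⟨h1, h2, h3⟩ := h γ hγ1 hγ2 (R * T) (scal γ R f) (mul_pos hR hT)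
    (hs d hd γ T R f hT hR hsol)
  have hR0 : R ≠ 0 := hR.ne'
  have hlam : ∀ t, Lam γ 1 (scal γ R f) t = R⁻¹ * LamR γ 1 R f (t / R) :=
    fun t => hl d hd γ 1 R f t hR
  have hlam' : ∀ t, LamR γ 1 R f t = R * Lam γ 1 (scal γ R f) (R * t) := by
    intro t
    rw [hlam, mul_div_cancel_left₀ _ hR0, mul_inv_cancel_left₀ hR0]
  have hmap : ∀ t ∈ Ico 0 T, R * t ∈ Ico 0 (R * T) := by
    intro t ht
    exact ⟨mul_nonneg hR.le ht.1, mul_lt_mul_of_pos_left ht.2 hR⟩
  refine ⟨?_, ?_, ?_⟩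
  · have hc : ContinuousOn (fun t => R * Lam γ 1 (scal γ R f) (R * t)) (Ico 0 T) :=
      continuousOn_const.mul (h1.comp (continuous_const.mul continuous_id).continuousOn hmap)
    have he : LamR γ 1 R f = fun t => R * Lam γ 1 (scal γ R f) (R * t) := funext hlam'
    rw [he]
    exact hc
  · intro t ht
    rw [hlam']
    exact mul_nonneg hR.le (h2 _ (hmap t ht))
  · intro N hN t ht x v
    have hp : 0 < R ^ ((d : ℝ) + γ - 1) := Real.rpow_pos_of_pos hR _
    have h4 := h3 (R ^ ((d : ℝ) + γ - 1) * N) (by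
      intro x v
      have := hN x (R • v)
      rw [inv_smul_smul₀ hR0] at this
      unfold scal
      rw [zero_div, mul_assoc]
      exact mul_le_mul_of_nonneg_left this hp.le) (R * t) (hmap t ht) x (R⁻¹ • v)
    have hint : ∫ τ in (0:ℝ)..(R * t), Lam γ 1 (scal γ R f) τ =
        ∫ τ in (0:ℝ)..t, LamR γ 1 R f τ := by
      have e1 : (fun τ => Lam γ 1 (scal γ R f) τ) = fun τ => R⁻¹ * LamR γ 1 R f (τ / R) :=
        funext hlam
      rw [e1, intervalIntegral.integral_const_mul, intervalIntegral.integral_comp_div _ hR0,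
        zero_div, mul_div_cancel_left₀ _ hR0, smul_eq_mul, inv_mul_cancel_left₀ hR0]
    rw [hint] at h4
    unfold scal at h4
    rw [mul_div_cancel_left₀ _ hR0, smul_inv_smul₀ hR0] at h4
    have h5 : R ^ ((d : ℝ) + γ - 1) * N *
        Real.exp (C * ∫ τ in (0:ℝ)..t, LamR γ 1 R f τ) * P d (R⁻¹ • v) =
        R ^ ((d : ℝ) + γ - 1) * (N *
        Real.exp (C * ∫ τ in (0:ℝ)..t, LamR γ 1 R f τ) * P d (R⁻¹ • v)) := by ring
    rw [h5] at h4
    exact le_of_mul_le_mul_left h4 hp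

end Pool.Agent.H51.BZ
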